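import Mathlib
import Pool.Agent.FRE.Stmts

set_option autoImplicit false

open Finset

namespace Pool.Agent.FRE.H95

theorem pop : PopStmt := by
  classical
  intro P K hK hE
  obtain ⟨n, hn⟩ : ∃ n : ℝ, n = (P.card : ℝ) := ⟨_, rfl⟩
  have hn0 : 0 ≤ n := by rw [hn]; positivity
  obtain ⟨PP, hPP⟩ : ∃ PP : Finset (ℂ × ℂ), PP = P ×ˢ P := ⟨_, rfl⟩
  have hPPc : (PP.card : ℝ) = n * n := by
    rw [hPP, Finset.card_product, hn]
    push_cast
    rfl
  obtain ⟨ρ, hρ⟩ : ∃ ρ : ℂ → ℕ, ∀ s, ρ s = (PP.filter fun q => q.1 + q.2 = s).card :=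
    ⟨_, fun _ => rfl⟩
  have hρn : ∀ s, (ρ s : ℝ) ≤ n := by
    intro s
    rw [hρ, hn]
    have : (PP.filter fun q => q.1 + q.2 = s).card ≤ P.card := by
      apply Finset.card_le_card_of_injOn (fun q => q.1)
      · intro q hq
        have hq' := Finset.mem_filter.1 (Finset.mem_coe.1 hq)
        rw [hPP, Finset.mem_product] at hq'
        exact Finset.mem_coe.2 hq'.1.1
      · intro q hq q' hq' h
        have h1 := (Finset.mem_filter.1 (Finset.mem_coe.1 hq)).2
        have h2 := (Finset.mem_filter.1 (Finset.mem_coe.1 hq')).2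
        simp only at h
        rw [← h2, ← h] at h1
        exact Prod.ext h (add_left_cancel h1)
    exact_mod_cast this
  have heng : (eng P : ℝ) = ∑ p ∈ PP, (ρ (p.1 + p.2) : ℝ) := by
    have h1 : eng P = ∑ p ∈ PP, ρ (p.1 + p.2) := by
      rw [eng, Finset.card_filter, Finset.sum_product, ← hPP]
      refine Finset.sum_congr rfl fun p _ => ?_
      rw [hρ, Finset.card_filter]
      refine Finset.sum_congr rfl fun q _ => ?_
      by_cases h : p.1 + p.2 = q.1 + q.2
      · rw [if_pos h, if_pos h.symm]
      · rw [if_neg h, if_neg (fun h' => h h'.symm)]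
    rw [h1]
    push_cast
    rfl
  obtain ⟨T, hT⟩ : ∃ T : Finset ℂ, T = PP.image fun p => p.1 + p.2 := ⟨_, rfl⟩
  have hsum : ∑ s ∈ T, (ρ s : ℝ) = n * n := by
    have h1 : PP.card = ∑ s ∈ T, ρ s := by
      have h2 := Finset.card_eq_sum_card_fiberwise (f := fun p : ℂ × ℂ => p.1 + p.2) (s := PP)
        (t := T) (by
          intro p hp
          rw [hT]
          exact Finset.mem_coe.2 (Finset.mem_image_of_mem _ (Finset.mem_coe.1 hp)))
      rw [h2]
      exact Finset.sum_congr rfl fun s _ => (hρ s).symm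
    rw [← hPPc, h1]
    push_cast
    rfl
  obtain ⟨S, hS⟩ : ∃ S : Finset ℂ, S = T.filter fun s => n ≤ 2 * K * ρ s := ⟨_, rfl⟩
  refine ⟨S, ?_, ?_⟩
  · rw [← hn]
    rcases hn0.eq_or_lt with h0 | h0
    · have hP : P = ∅ := by
        rw [← h0] at hn
        have : P.card = 0 := by exact_mod_cast hn.symm
        exact Finset.card_eq_zero.1 this
      have hSe : S = ∅ := by
        rw [hS, hT, hPP, hP]
        simp
      rw [hSe, ← h0]
      simp
    · have h1 : (S.card : ℝ) * n ≤ 2 * K * (n * n) := by
        calc (S.card : ℝ) * n = ∑ s ∈ S, n := by rw [Finset.sum_const, nsmul_eq_mul]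
          _ ≤ ∑ s ∈ S, 2 * K * (ρ s : ℝ) := by
              refine Finset.sum_le_sum fun s hs => ?_
              rw [hS, Finset.mem_filter] at hs
              exact hs.2
          _ ≤ ∑ s ∈ T, 2 * K * (ρ s : ℝ) := by
              refine Finset.sum_le_sum_of_subset_of_nonneg ?_ fun s _ _ => by positivity
              rw [hS]
              exact Finset.filter_subset _ _
          _ = 2 * K * (n * n) := by rw [← Finset.mul_sum, hsum]
      have h2 : (S.card : ℝ) * n ≤ 2 * K * n * n := by linarith
      exact le_of_mul_le_mul_right h2 h0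
  · rw [← hn, ← hPP]
    obtain ⟨M, hM⟩ : ∃ M : ℝ, M = ((PP.filter fun p => p.1 + p.2 ∈ S).card : ℝ) := ⟨_, rfl⟩
    have hM' : ((Finset.filter (fun p : ℂ × ℂ => p.1 + p.2 ∈ S) PP).card : ℝ) = M := hM.symm
    rw [hM']
    rcases hn0.eq_or_lt with h0 | h0
    · rw [← h0, zero_mul]
      rw [hM]
      positivity
    · have h1 : (eng P : ℝ) ≤ n * M + n * n * (n / (2 * K)) := by
        rw [heng, ← Finset.sum_filter_add_sum_filter_not PP (fun p => p.1 + p.2 ∈ S)]
        apply add_le_add
        · calc ∑ p ∈ PP.filter (fun p => p.1 + p.2 ∈ S), (ρ (p.1 + p.2) : ℝ)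
              ≤ ∑ p ∈ PP.filter (fun p => p.1 + p.2 ∈ S), n :=
                Finset.sum_le_sum fun p _ => hρn _
            _ = n * M := by rw [Finset.sum_const, nsmul_eq_mul, hM, mul_comm]
        · calc ∑ p ∈ PP.filter (fun p => ¬ (p.1 + p.2 ∈ S)), (ρ (p.1 + p.2) : ℝ)
              ≤ ∑ p ∈ PP.filter (fun p => ¬ (p.1 + p.2 ∈ S)), n / (2 * K) := by
                refine Finset.sum_le_sum fun p hp => ?_
                rw [Finset.mem_filter] at hp
                have h2 : ¬ n ≤ 2 * K * ρ (p.1 + p.2) := by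
                  intro h3
                  apply hp.2
                  rw [hS, Finset.mem_filter]
                  refine ⟨?_, h3⟩
                  rw [hT]
                  exact Finset.mem_image_of_mem (fun p : ℂ × ℂ => p.1 + p.2) hp.1
                rw [le_div_iff₀ (by positivity)]
                push Not at h2
                linarith
            _ ≤ ∑ p ∈ PP, n / (2 * K) := by
                refine Finset.sum_le_sum_of_subset_of_nonneg (Finset.filter_subset _ _) fun p _ _ => ?_
                positivity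
            _ = n * n * (n / (2 * K)) := by rw [Finset.sum_const, nsmul_eq_mul, hPPc]
      have h2 : n ^ 3 ≤ K * (n * M + n * n * (n / (2 * K))) := by
        calc n ^ 3 ≤ K * eng P := by rw [hn]; exact hE
          _ ≤ _ := mul_le_mul_of_nonneg_left h1 hK.le
      have h3 : K * (n * M + n * n * (n / (2 * K))) = K * n * M + n ^ 3 / 2 := by
        field_simp
      rw [h3] at h2
      have h4 : n * (n * n) ≤ n * (2 * K * M) := by nlinarith
      exact le_of_mul_le_mul_left h4 h0

end Pool.Agent.FRE.H95
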